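import Mathlib

/-!
# Upper directed domination versus independence number in uniform hypergraphs

For every `r`-uniform hypergraph `H` of order `n ≥ 2` and every `1 ≤ p ≤ r - 1` the upper
directed `p`-domination number is at most `2 α(H) (⌊log₂ n⌋ + 1)`, hence at most
`6 α(H) ln n`.
-/

set_option autoImplicit false

namespace Pool.Agent.Results.MP_8fb7e7_co.UniversalConstant

variable {V : Type*} [Fintype V] [DecidableEq V]

/-- `D` is an orientation of the hypergraph `H`: to every edge it assigns a linear ordering of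
the edge, that is a list of its distinct vertices. -/
def IsOrientation (H : Finset (Finset V)) (D : Finset V → List V) : Prop :=
  ∀ E ∈ H, (D E).Nodup ∧ (D E).toFinset = E

/-- `S` is a directed `p`-dominating set: every vertex `u` outside `S` lies in an edge whose first
`p` vertices all belong to `S`. -/
def IsDirDominating (H : Finset (Finset V)) (D : Finset V → List V) (p : ℕ) (S : Finset V) :
    Prop :=
  ∀ u, u ∉ S → ∃ E ∈ H, u ∈ E ∧ ∀ x ∈ (D E).take p, x ∈ S

/-- The least size of a directed `p`-dominating set of the orientation `D`. -/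
noncomputable def dirDomNum (H : Finset (Finset V)) (D : Finset V → List V) (p : ℕ) : ℕ :=
  sInf {m | ∃ S : Finset V, IsDirDominating H D p S ∧ S.card = m}

/-- The upper directed `p`-domination number: the maximum over all orientations. -/
noncomputable def upperDirDomNum (H : Finset (Finset V)) (p : ℕ) : ℕ :=
  sSup {m | ∃ D : Finset V → List V, IsOrientation H D ∧ dirDomNum H D p = m}

/-- The independence number: the largest size of a vertex set containing no edge. -/
noncomputable def indepNum (H : Finset (Finset V)) : ℕ :=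
  sSup {m | ∃ S : Finset V, (∀ E ∈ H, ¬ E ⊆ S) ∧ S.card = m}

lemma card_le_indepNum (H : Finset (Finset V)) (S : Finset V) (hS : ∀ E ∈ H, ¬ E ⊆ S) :
    S.card ≤ indepNum H := by
  apply le_csSup
  · refine ⟨Fintype.card V, ?_⟩
    rintro m ⟨T, _, rfl⟩
    exact Finset.card_le_univ T
  · exact ⟨S, hS, rfl⟩

/-- `v` is not dominated by `S` (with the first `q` vertices of an edge in `S`). -/
def Bad (H : Finset (Finset V)) (D : Finset V → List V) (q : ℕ) (S : Finset V) (v : V) : Prop :=
  ¬ ∃ E ∈ H, v ∈ E ∧ ∀ x ∈ (D E).take q, x ∈ S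

/-- Inside a set `T` at most `α(H)` vertices are not dominated. -/
lemma bad_card_le (H : Finset (Finset V)) (D : Finset V → List V) (r : ℕ) (hr : 2 ≤ r)
    (hu : ∀ E ∈ H, E.card = r) (hD : IsOrientation H D) (T : Finset V)
    [DecidablePred (fun v => Bad H D (r - 1) (T.erase v) v)] :
    (T.filter (fun v => Bad H D (r - 1) (T.erase v) v)).card ≤ indepNum H := by
  apply card_le_indepNum
  intro E hE hsub
  obtain ⟨hn, hf⟩ := hD E hE
  have hlen : (D E).length = r := by
    rw [← hu E hE, ← List.toFinset_card_of_nodup hn, hf]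
  have hne : D E ≠ [] := by
    intro h
    rw [h] at hlen
    simp at hlen
    omega
  have hw : (D E).getLast hne ∈ E := by
    have := List.getLast_mem hne
    rw [← List.mem_toFinset, hf] at this
    exact this
  have hbad := (Finset.mem_filter.1 (hsub hw)).2
  apply hbad
  refine ⟨E, hE, hw, ?_⟩
  intro x hx
  rw [← hlen, ← List.dropLast_eq_take] at hx
  have hxE : x ∈ E := by
    have := List.mem_of_mem_dropLast hx
    rw [← List.mem_toFinset, hf] at this
    exact this
  refine Finset.mem_erase.2 ⟨?_, (Finset.mem_filter.1 (hsub hxE)).1⟩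
  intro hxl
  have h1 := List.dropLast_append_getLast hne
  rw [← h1] at hn
  have := (List.nodup_append.1 hn).2.2 x hx _ (List.mem_singleton.2 rfl)
  exact this hxl

/-- Averaging step. -/
lemma half (H : Finset (Finset V)) (D : Finset V → List V) (r : ℕ) (hr : 2 ≤ r)
    (hu : ∀ E ∈ H, E.card = r) (hD : IsOrientation H D) (k : ℕ)
    (hk : k + 1 = 2 * indepNum H) (X : Finset V) (hX : k + 1 ≤ X.card)
    [∀ S, DecidablePred (fun v => Bad H D (r - 1) S v)] :
    ∃ S ⊆ X, S.card = k ∧
      2 * ((X \ S).filter (fun v => Bad H D (r - 1) S v)).card ≤ X.card - k := by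
  classical
  by_contra hcon
  push Not at hcon
  let P1 : Finset (Σ _ : Finset V, V) :=
    (X.powersetCard k).sigma (fun S => (X \ S).filter (fun v => Bad H D (r - 1) S v))
  let P2 : Finset (Σ _ : Finset V, V) :=
    (X.powersetCard (k + 1)).sigma (fun T => T.filter (fun v => Bad H D (r - 1) (T.erase v) v))
  have h12 : P1.card ≤ P2.card := by
    apply Finset.card_le_card_of_injOn (fun p => ⟨insert p.2 p.1, p.2⟩)
    · rintro ⟨S, v⟩ hp
      simp only [P1, Finset.coe_sigma, Set.mem_sigma_iff, Finset.mem_coe, Finset.mem_powersetCard,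
        Finset.mem_filter, Finset.mem_sdiff] at hp
      obtain ⟨⟨hS1, hS2⟩, ⟨hv1, hv2⟩, hv3⟩ := hp
      simp only [P2, Finset.coe_sigma, Set.mem_sigma_iff, Finset.mem_coe, Finset.mem_powersetCard,
        Finset.mem_filter]
      refine ⟨⟨Finset.insert_subset hv1 hS1, ?_⟩, Finset.mem_insert_self _ _, ?_⟩
      · rw [Finset.card_insert_of_notMem hv2, hS2]
      · rw [Finset.erase_insert hv2]; exact hv3
    · rintro ⟨S, v⟩ hp ⟨S', v'⟩ hp' heq
      simp only [P1, Finset.coe_sigma, Set.mem_sigma_iff, Finset.mem_coe, Finset.mem_powersetCard,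
        Finset.mem_filter, Finset.mem_sdiff] at hp hp'
      simp only [Sigma.mk.injEq, heq_eq_eq] at heq
      obtain ⟨h1, rfl⟩ := heq
      have : S = S' := by
        rw [← Finset.erase_insert hp.2.1.2, h1, Finset.erase_insert hp'.2.1.2]
      rw [this]
  have h2 : P2.card ≤ (X.card.choose (k + 1)) * indepNum H := by
    rw [Finset.card_sigma, ← Finset.card_powersetCard, ← smul_eq_mul]
    apply Finset.sum_le_card_nsmul
    intro T _
    exact bad_card_le H D r hr hu hD T
  have h1 : (X.card.choose k) * (X.card - k + 1) ≤ 2 * P1.card := by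
    rw [Finset.card_sigma, Finset.mul_sum, ← Finset.card_powersetCard, ← smul_eq_mul]
    apply Finset.card_nsmul_le_sum
    intro S hS
    obtain ⟨hS1, hS2⟩ := Finset.mem_powersetCard.1 hS
    exact hcon S hS1 hS2
  have h3 := Nat.choose_succ_right_eq X.card k
  have hpos : 0 < X.card.choose k := Nat.choose_pos (by omega)
  have h4 : 2 * P1.card ≤ (X.card.choose (k + 1)) * (k + 1) := by
    calc 2 * P1.card ≤ 2 * ((X.card.choose (k + 1)) * indepNum H) := by
          exact Nat.mul_le_mul_left _ (h12.trans h2)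
      _ = (X.card.choose (k + 1)) * (k + 1) := by rw [hk]; ring
  rw [h3] at h4
  have h5 := h1.trans h4
  rw [Nat.mul_add, Nat.mul_one] at h5
  omega

/-- Iteration of the averaging step. -/
lemma iter (H : Finset (Finset V)) (D : Finset V → List V) (r : ℕ) (hr : 2 ≤ r)
    (hu : ∀ E ∈ H, E.card = r) (hD : IsOrientation H D) (ha : 1 ≤ indepNum H) (t : ℕ) :
    ∀ X : Finset V, X.card < 2 ^ t → ∃ S : Finset V, S.card ≤ 2 * indepNum H * t ∧
      ∀ v ∈ X, v ∉ S → ¬ Bad H D (r - 1) S v := by
  classical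
  have mono : ∀ (S S' : Finset V) (v : V), S ⊆ S' → ¬ Bad H D (r - 1) S v →
      ¬ Bad H D (r - 1) S' v := by
    intro S S' v hSS h
    unfold Bad at h ⊢
    rw [not_not] at h ⊢
    obtain ⟨E, hE, hv, hx⟩ := h
    exact ⟨E, hE, hv, fun x hx' => hSS (hx x hx')⟩
  induction t with
  | zero =>
    intro X hX
    have : X = ∅ := by
      rw [← Finset.card_eq_zero]
      simpa using hX
    exact ⟨∅, by simp, by simp [this]⟩
  | succ t ih =>
    intro X hX
    by_cases hs : X.card + 1 ≤ 2 * indepNum H
    · refine ⟨X, ?_, fun v hv hv' => absurd hv hv'⟩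
      have : 2 * indepNum H ≤ 2 * indepNum H * (t + 1) := Nat.le_mul_of_pos_right _ (by omega)
      omega
    · obtain ⟨k, hk⟩ : ∃ k, k + 1 = 2 * indepNum H := ⟨2 * indepNum H - 1, by omega⟩
      obtain ⟨S0, hS0, hc0, hb0⟩ := half H D r hr hu hD k hk X (by omega)
      obtain ⟨S1, hc1, hb1⟩ := ih ((X \ S0).filter (fun v => Bad H D (r - 1) S0 v))
        (by rw [pow_succ] at hX; omega)
      refine ⟨S0 ∪ S1, ?_, ?_⟩
      · have := Finset.card_union_le S0 S1
        rw [Nat.mul_add, Nat.mul_one]
        omega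
      · intro v hv hvS
        rw [Finset.mem_union, not_or] at hvS
        by_cases hbad : Bad H D (r - 1) S0 v
        · refine mono S1 _ v Finset.subset_union_right (hb1 v ?_ hvS.2)
          exact Finset.mem_filter.2 ⟨Finset.mem_sdiff.2 ⟨hv, hvS.1⟩, hbad⟩
        · exact mono S0 _ v Finset.subset_union_left hbad

lemma indepNum_pos (H : Finset (Finset V)) (r : ℕ) (hr : 2 ≤ r)
    (hu : ∀ E ∈ H, E.card = r) (v : V) : 1 ≤ indepNum H := by
  have := card_le_indepNum H {v} (fun E hE hs => by
    have := Finset.card_le_card hs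
    rw [hu E hE, Finset.card_singleton] at this
    omega)
  simpa using this

lemma upper_le (H : Finset (Finset V)) (r p : ℕ) (hp1 : 1 ≤ p) (hp : p ≤ r - 1)
    (hu : ∀ E ∈ H, E.card = r) (hn : 2 ≤ Fintype.card V) :
    upperDirDomNum H p ≤ 2 * indepNum H * (Nat.log 2 (Fintype.card V) + 1) := by
  classical
  unfold upperDirDomNum
  rcases Set.eq_empty_or_nonempty
    {m | ∃ D : Finset V → List V, IsOrientation H D ∧ dirDomNum H D p = m} with he | hne
  · rw [he]; simp
  · apply csSup_le hne
    rintro m ⟨D, hD, rfl⟩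
    have hv : Nonempty V := Fintype.card_pos_iff.1 (by omega)
    obtain ⟨v0⟩ := hv
    obtain ⟨S, hS1, hS2⟩ := iter H D r (by omega) hu hD (indepNum_pos H r (by omega) hu v0)
      (Nat.log 2 (Fintype.card V) + 1) Finset.univ (by
        rw [Finset.card_univ]
        exact Nat.lt_pow_succ_log_self (by norm_num) _)
    refine le_trans (Nat.sInf_le ⟨S, ?_, rfl⟩) hS1
    intro u hu'
    have := hS2 u (Finset.mem_univ _) hu'
    unfold Bad at this
    rw [not_not] at this
    obtain ⟨E, hE, huE, hx⟩ := this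
    refine ⟨E, hE, huE, fun x hx' => hx x ?_⟩
    exact (List.take_prefix_take_left hp).subset hx'

/-- Every `r`-uniform hypergraph `H` of order `n ≥ 2` satisfies, for all `1 ≤ p ≤ r - 1`, the
bounds `Γ_p(H) ≤ 2 α(H) (⌊log₂ n⌋ + 1)` and `Γ_p(H) ≤ 6 α(H) ln n`. -/
theorem result : ∀ (V : Type) [Fintype V] [DecidableEq V] (r p : ℕ) (H : Finset (Finset V)),
    1 ≤ p → p ≤ r - 1 → (∀ E ∈ H, E.card = r) → 2 ≤ Fintype.card V →
    upperDirDomNum H p ≤ 2 * indepNum H * (Nat.log 2 (Fintype.card V) + 1) ∧
    (upperDirDomNum H p : ℝ) ≤ 6 * (indepNum H : ℝ) * Real.log (Fintype.card V : ℝ) := by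
  intro V _ _ r p H hp1 hp hu hn
  have h1 := upper_le H r p hp1 hp hu hn
  refine ⟨h1, ?_⟩
  have h2 : (upperDirDomNum H p : ℝ) ≤
      2 * (indepNum H : ℝ) * ((Nat.log 2 (Fintype.card V) : ℝ) + 1) := by
    exact_mod_cast h1
  have hlog2 : (0.6931471803 : ℝ) < Real.log 2 := Real.log_two_gt_d9
  have h3 : (Nat.log 2 (Fintype.card V) : ℝ) * Real.log 2 ≤ Real.log (Fintype.card V : ℝ) := by
    rw [← Real.log_pow]
    apply Real.log_le_log (by positivity)
    exact_mod_cast Nat.pow_log_le_self 2 (by omega)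
  have h4 : (1 : ℝ) ≤ (Nat.log 2 (Fintype.card V) : ℝ) := by
    have : 1 ≤ Nat.log 2 (Fintype.card V) := Nat.log_pos (by norm_num) hn
    exact_mod_cast this
  have ha : (0 : ℝ) ≤ (indepNum H : ℝ) := Nat.cast_nonneg _
  have h5 : ((Nat.log 2 (Fintype.card V) : ℝ) + 1) ≤ 3 * Real.log (Fintype.card V : ℝ) := by
    nlinarith
  calc (upperDirDomNum H p : ℝ) ≤ 2 * (indepNum H : ℝ) * ((Nat.log 2 (Fintype.card V) : ℝ) + 1) := h2
    _ ≤ 2 * (indepNum H : ℝ) * (3 * Real.log (Fintype.card V : ℝ)) := by
        apply mul_le_mul_of_nonneg_left h5; positivity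
    _ = 6 * (indepNum H : ℝ) * Real.log (Fintype.card V : ℝ) := by ring

end Pool.Agent.Results.MP_8fb7e7_co.UniversalConstant
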